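import Pool.Agent.Y402.PL.Dens2
import Pool.Agent.Y177.PL.STC2
import Pool.Agent.Y454.PL.ANA3

/-!
# MP_796fdb_co: a Plünnecke inequality for the lower rectangular density, constant `Γ(1 + k'/k)`

For all `A, B ⊆ ℕ²` with `(0,0) ∈ B` and all `0 < k' < k`, with `θ = k'/k`,

  `d(A + k'B) ≥ Γ(1+θ) · d(A)^(1-θ) · d(kB)^θ`,

where `d` is the lower rectangular density: `d(C)` is the infimum over all sequences
`W_j → ∞`, `H_j → ∞` of `liminf_j |C ∩ [0,W_j]×[0,H_j]| / ((W_j+1)(H_j+1))`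
(`Pool.Agent.Y402.PL.dRect`; `kfold B k` is the `k`-fold sumset of `B`).
The known constant is `(1+k')^(-2)`; `Γ(1+θ) > 0.88` for all `θ`.
-/

set_option autoImplicit false

namespace Pool.Agent.Results.MP_796fdb_co.GammaConstant

open Pointwise Pool.Agent.Y402.PL

/-- Plünnecke inequality for the lower rectangular density with the constant `Γ(1 + k'/k)`. -/
theorem result :
    ∀ A B : Set (ℕ × ℕ), ((0, 0) : ℕ × ℕ) ∈ B → ∀ k k' : ℕ, 0 < k' → k' < k →
      Real.Gamma (1 + (k' : ℝ) / (k : ℝ)) *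
        (dRect A ^ (1 - (k' : ℝ) / (k : ℝ)) * dRect (kfold B k) ^ ((k' : ℝ) / (k : ℝ)))
      ≤ dRect (A + kfold B k') := by
  intro A B hB k k' hk' hk
  exact dens_main hCH2 Pool.Agent.Y177.PL.mainSTC2 mainAREA Pool.Agent.Y454.PL.mainANA3
    A B hB k k' hk' hk

end Pool.Agent.Results.MP_796fdb_co.GammaConstant
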